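import Pool.Agent.R660.HG.Main

/-!
# MP_46c6cb_nt: the associated order in the canonical nonclassical Hopf-Galois structure is maximal
when `p ∤ [L:K]`

The definitions (`LN G L = L[N]` with `N = λ(G) ≤ Perm G`, the action `gact` of `G` on it,
`Hlam G K L = H_λ = L[N]^G`, its action `act` on `L`, `assocOrder`, `IsOrder`, `IsMaximalOrder`)
are in `Pool.Agent.R660.HG.Defs`.
-/

set_option autoImplicit false

namespace Pool.Agent.Results.MP_46c6cb_nt.MaximalAssociatedOrder

open Pool.Agent.R660.HG

/-- The ring homomorphism `ℤ_p → F` for a field `F` over `ℚ_p`. -/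
noncomputable def zpMap (p : ℕ) [Fact p.Prime] (F : Type*) [Field F] [Algebra ℚ_[p] F] :
    ℤ_[p] →+* F :=
  (algebraMap ℚ_[p] F).comp (algebraMap ℤ_[p] ℚ_[p])

/-- The ring of integers `𝔒_F` of a `p`-adic field `F`: the elements integral over `ℤ_p`. -/
def integers (p : ℕ) [Fact p.Prime] (F : Type*) [Field F] [Algebra ℚ_[p] F] : Subring F where
  carrier := {x | (zpMap p F).IsIntegralElem x}
  mul_mem' := fun ha hb => RingHom.IsIntegralElem.mul _ ha hb
  one_mem' := (zpMap p F).isIntegralElem_one
  add_mem' := fun ha hb => RingHom.IsIntegralElem.add _ ha hb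
  zero_mem' := (zpMap p F).isIntegralElem_zero
  neg_mem' := fun ha => RingHom.IsIntegralElem.neg _ ha

/-- **MP_46c6cb_nt, Q1.** Let `L/K` be a finite Galois extension of `p`-adic fields with group `G`
and `p ∤ [L:K]`. Then the associated order `𝔄_λ` of `𝔒_L` in `H_λ` is a maximal `𝔒_K`-order in
`H_λ`. -/
theorem result (p : ℕ) [Fact p.Prime] (K L G : Type*) [Field K] [Field L] [Algebra ℚ_[p] K]
    [FiniteDimensional ℚ_[p] K] [Algebra ℚ_[p] L] [Algebra K L] [IsScalarTower ℚ_[p] K L]
    [Group G] [Finite G] [MulSemiringAction G L] [SMulCommClass G K L] [IsGaloisGroup G K L]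
    (hp : ¬ p ∣ Module.finrank K L) :
    IsMaximalOrder (integers p K) (Hlam G K L) (assocOrder G K (integers p L)) := by
  have := Fintype.ofFinite G
  have : FiniteDimensional K L := IsGaloisGroup.finiteDimensional G K L
  let : Algebra ℤ_[p] K := (zpMap p K).toAlgebra
  let : Algebra ℤ_[p] L := (zpMap p L).toAlgebra
  have : IsScalarTower ℤ_[p] ℚ_[p] K := IsScalarTower.of_algebraMap_eq' rfl
  have : IsScalarTower ℤ_[p] ℚ_[p] L := IsScalarTower.of_algebraMap_eq' rfl
  have : IsScalarTower ℤ_[p] K L := by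
    refine IsScalarTower.of_algebraMap_eq' ?_
    change (algebraMap ℚ_[p] L).comp (algebraMap ℤ_[p] ℚ_[p]) =
      (algebraMap K L).comp ((algebraMap ℚ_[p] K).comp (algebraMap ℤ_[p] ℚ_[p]))
    rw [← RingHom.comp_assoc, ← IsScalarTower.algebraMap_eq ℚ_[p] K L]
  let : Algebra ℤ_[p] (integers p K) :=
    ((zpMap p K).codRestrict (integers p K) fun r => (zpMap p K).isIntegralElem_map).toAlgebra
  have : IsScalarTower ℤ_[p] (integers p K) K := IsScalarTower.of_algebraMap_eq' rfl
  have : IsScalarTower ℤ_[p] (integers p K) L := by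
    refine IsScalarTower.of_algebraMap_eq' ?_
    rw [IsScalarTower.algebraMap_eq ℤ_[p] K L]
    rfl
  have hIC : IsIntegralClosure (integers p K) ℤ_[p] K :=
    { algebraMap_injective := Subtype.val_injective
      isIntegral_iff := fun {x} => ⟨fun hx => ⟨⟨x, hx⟩, rfl⟩, by rintro ⟨y, rfl⟩; exact y.2⟩ }
  have : IsDedekindDomain (integers p K) :=
    IsIntegralClosure.isDedekindDomain ℤ_[p] ℚ_[p] K (integers p K)
  have : IsFractionRing (integers p K) K :=
    IsIntegralClosure.isFractionRing_of_finite_extension ℤ_[p] ℚ_[p] K (integers p K)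
  have : Algebra.IsIntegral ℤ_[p] (integers p K) :=
    IsIntegralClosure.isIntegral_algebra ℤ_[p] K
  have hmem : ∀ x : L, x ∈ integers p L ↔ IsIntegral (integers p K) x := by
    intro x
    constructor
    · intro hx
      have : IsIntegral ℤ_[p] x := hx
      exact this.tower_top
    · intro hx
      exact isIntegral_trans (R := ℤ_[p]) x hx
  apply assoc_isMaximalOrder hmem
  rw [← Nat.card_eq_fintype_card, IsGaloisGroup.card_eq_finrank G K L]
  have hu : IsUnit ((Module.finrank K L : ℕ) : ℤ_[p]) := by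
    rw [PadicInt.isUnit_iff]
    by_contra hne
    have h1 : ‖((Module.finrank K L : ℤ) : ℤ_[p])‖ < 1 :=
      lt_of_le_of_ne (PadicInt.norm_le_one _) (by simpa using hne)
    rw [PadicInt.norm_int_lt_one_iff_dvd] at h1
    exact hp (by exact_mod_cast h1)
  have hu2 := hu.map (algebraMap ℤ_[p] (integers p K))
  rwa [map_natCast] at hu2

end Pool.Agent.Results.MP_46c6cb_nt.MaximalAssociatedOrder
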